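import Pool.Agent.Lib.MP_a9ad87_al.ChLoc2
import Pool.Agent.Lib.MP_a9ad87_al.LimFin

namespace Pool.Agent.Results.MP_a9ad87_al.CharDep

open Pool.Agent.Lib.MP_a9ad87_al

universe v

theorem result : ∃ h : List ℕ, h.getD 0 0 = 1 ∧ 0 < h.getD (h.length - 1) 0 ∧
    (∃ (K : Type) (_ : Field K) (_ : Infinite K) (_ : CharP K 2), IsLevel K h) ∧
    ∀ (k : Type v) [Field k] [CharZero k], ¬ IsLevel k h := by
  obtain ⟨h, h1, ⟨K, i1, i2, i3, h2⟩, h3⟩ := Lim.final2.{v} Ch.noAS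
  refine ⟨h, ?_, h1, ⟨K, i1, i2, i3, h2⟩, h3⟩
  obtain ⟨n, I, -, h4, -⟩ := h2
  have : Nontrivial (MvPolynomial (Fin n) K ⧸ I) := by
    by_contra hc
    rw [not_nontrivial_iff_subsingleton] at hc
    rw [← h4, Module.finrank_zero_of_subsingleton] at h1
    exact lt_irrefl _ h1
  rw [← h4, piece, MvPolynomial.homogeneousSubmodule_zero, Submodule.map_one,
    Submodule.one_eq_span, finrank_span_singleton one_ne_zero]

end Pool.Agent.Results.MP_a9ad87_al.CharDep
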