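import Pool.Agent.Lib.MP_a9ad87_al.Defs
import Pool.Agent.Lib.MP_a9ad87_al.Main

namespace Pool.Agent.Results.MP_a9ad87_al.SocleThree

open Pool.Agent.Lib.MP_a9ad87_al

theorem result (k : Type*) [Field k] (r a t : ℕ) (ht : 1 ≤ t) (h1 : 2 * t ≤ r + 1)
    (h2 : t ^ 2 ≤ 4 * r) :
    IsLevel k [1, r, a, t] ↔ a ≤ r * t ∧ ∃ (N D : ℕ) (n : Fin (t - 1) → ℕ), D ≤ N.choose 2 ∧
      D + 2 * N + ∑ j, n j ≤ a ∧ r ≤ a + ∑ j, min ((n j).choose 2) D := by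
  obtain ⟨s, rfl⟩ : ∃ s, t = s + 1 := ⟨t - 1, by omega⟩
  exact main k h1 h2

end Pool.Agent.Results.MP_a9ad87_al.SocleThree
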